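import Pool.Agent.QUD.StmtsV

/-!
# Squad QUD, row MCE
-/

set_option autoImplicit false

namespace Pool.Agent.QUD.H15

open Real Set

/-- **MCE**. -/
theorem mce : MceStmt := by
  intro a b b' ha1 ha2 hb hbb hb'
  have hpi := Real.pi_pos
  have ha0 : 0 < a := by linarith
  set β : ℝ := π / a with hβ
  have hβa : β * a = π := by rw [hβ]; field_simp
  have hβ1 : 1 < β := by rw [hβ, lt_div_iff₀ ha0]; linarith
  have hβ2 : β < 2 := by rw [hβ, div_lt_iff₀ ha0]; linarith
  have hβ0 : 0 < β := by linarith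
  have hkey : 2 * β * (π / 2 - b) < 2 * π - β * π := by nlinarith
  have hlt : 2 * β * (π / 2 - b') < 2 * β * (π / 2 - b) :=
    mul_lt_mul_of_pos_left (by linarith) (by positivity)
  have h0 : 0 ≤ 2 * β * (π / 2 - b') := mul_nonneg (by positivity) (by linarith)
  have hle : 2 * π - β * π ≤ π := by nlinarith
  have hle0 : 0 ≤ 2 * π - β * π := by nlinarith
  have hcos : cos (β * π) = cos (2 * π - β * π) := by rw [cos_two_pi_sub]
  have hc1 : cos (2 * β * (π / 2 - b)) < cos (2 * β * (π / 2 - b')) :=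
    strictAntiOn_cos ⟨h0, by linarith⟩ ⟨by linarith, by linarith⟩ hlt
  have hc2 : cos (β * π) < cos (2 * β * (π / 2 - b)) := by
    rw [hcos]
    exact strictAntiOn_cos ⟨by linarith, by linarith⟩ ⟨hle0, hle⟩ hkey
  have hs : sin (β * π) < 0 := by
    have h1 : sin (β * π) = -sin (β * π - π) := by rw [sin_sub_pi, neg_neg]
    rw [h1, neg_lt_zero]
    exact sin_pos_of_pos_of_lt_pi (by nlinarith) (by nlinarith)
  rw [Cs, Cs, Cf, Cf, ← hβ]
  exact div_lt_div_of_pos_left (mul_pos (by positivity) (by linarith)) (by linarith) (by linarith)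

end Pool.Agent.QUD.H15
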