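import Pool.Agent.QUD.StmtsL

/-!
# Squad QUD, row THR
-/

set_option autoImplicit false

namespace Pool.Agent.QUD.H15

open MeasureTheory Complex Filter Topology ProbabilityTheory Pool.Agent.H16Iso Pool.Agent.H62T
open Pool.Agent.H16F (Sublin ind)
open Pool.Agent.AEU Pool.Agent.XQ

/-- **THR**. -/
theorem thr (t3x : T3xStatement) : ThrStmt := by
  intro X L hX hB h hs hf hl
  by_contra hc
  push Not at hc
  obtain ⟨F, hF, hF4⟩ := Finset.exists_subset_card_eq (show 4 ≤ (touch X h).card by omega)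
  obtain ⟨t, ht, h', hs', hf', hsub, hlt⟩ := t3x X hX h hs hf F hF hF4
  have h1 := (hB h' hs' hf' (lt_of_lt_of_le hlt hl)).1
  have h2 := Finset.card_le_card hsub
  rw [Finset.card_erase_of_mem ht, hF4] at h2
  omega

end Pool.Agent.QUD.H15
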