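import Pool.Agent.QUD.StmtsXU

/-!
Squad QUD (MP_5b0138_an), row XM2 (helper15): two items of the types B, H, at most one genuine B.
-/

set_option autoImplicit false

namespace Pool.Agent.QUD.H15

open MeasureTheory Filter Topology Real Set Pool.Agent.AEU Pool.Agent.AEU.H12 Pool.Agent.XQ
  Pool.Agent.XQ.U Pool.Agent.QUD

theorem sum_nat (B : List (ℝ × ℝ)) (M : ℝ) (f : ℝ × ℝ → ℝ) (h1 : ∀ q, q.1 = M → f q = 1)
    (h0 : ∀ q, q.1 ≠ M → f q = 0) :
    ∃ n : ℕ, (B.map f).sum = n ∧ ((∀ q ∈ B, q.1 = M) → n = B.length) := by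
  induction B with
  | nil => exact ⟨0, by simp, fun _ => rfl⟩
  | cons q B ih =>
    obtain ⟨n, hn, hn'⟩ := ih
    by_cases hq : q.1 = M
    · refine ⟨n + 1, ?_, ?_⟩
      · rw [List.map_cons, List.sum_cons, hn, h1 q hq]
        push_cast
        ring
      · intro h
        rw [List.length_cons, hn' fun q' hq' => h q' (List.mem_cons_of_mem _ hq')]
    · refine ⟨n, ?_, ?_⟩
      · rw [List.map_cons, List.sum_cons, hn, h0 q hq, zero_add]
      · intro h
        exact absurd (h q List.mem_cons_self) hq

theorem sum_zero {α : Type} (l : List α) (f : α → ℝ) (h : ∀ x ∈ l, f x = 0) : (l.map f).sum = 0 := by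
  refine List.sum_eq_zero fun y hy => ?_
  obtain ⟨x, hx, rfl⟩ := List.mem_map.1 hy
  exact h x hx

theorem le_sum {α : Type} (l : List α) (f : α → ℝ) (h : ∀ x, 0 ≤ f x) (x : α) (hx : x ∈ l) :
    f x ≤ (l.map f).sum := by
  refine List.single_le_sum ?_ _ (List.mem_map_of_mem hx)
  intro y hy
  obtain ⟨x', _, rfl⟩ := List.mem_map.1 hy
  exact h x'

theorem sum_nn {α : Type} (l : List α) (f : α → ℝ) (h : ∀ x, 0 ≤ f x) : 0 ≤ (l.map f).sum := by
  refine List.sum_nonneg fun y hy => ?_
  obtain ⟨x, _, rfl⟩ := List.mem_map.1 hy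
  exact h x

theorem core (XCE : XceStmt) (a b c : ℝ) (A B : List (ℝ × ℝ)) (H : List ℝ) (K1 : Kil (a, b))
    (K2 : Kil (a, c)) (hO : OkL A B H) (n1 : ¬ obt (a, b)) (n2 : ¬ obt (a, c))
    (hm : min a b = π / 2) (hw : ∀ α, wt α (a, b) + wt α (a, c) = wQ B H α)
    (hc : ct (a, b) + ct (a, c) = cQ B H) : max a b ∈ H := by
  classical
  by_contra hM
  obtain ⟨M, hMd⟩ : ∃ M, M = max a b := ⟨_, rfl⟩
  rw [← hMd] at hM
  have hMpi : M < π := by
    rw [hMd]
    exact max_lt K1.2.1 K1.2.2.2.1
  have hM2 : π / 2 < M := by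
    have h1 : min a b + max a b = a + b := min_add_max a b
    have h2 : π < a + b := K1.2.2.2.2
    rw [hMd]
    linarith
  have e1 : om (a, b) = 1 / 2 := by
    unfold om
    rw [if_neg n1, if_pos hm]
  have e2 : wt M (a, b) = 1 / 2 := by
    unfold wt
    rw [if_pos hMd.symm]
    exact e1
  have hH : (H.map fun β => if β = M then (1 / 2 : ℝ) else 0).sum = 0 := by
    refine sum_zero H _ fun β hβ => ?_
    rw [if_neg]
    rintro rfl
    exact hM hβ
  obtain ⟨n, hn, hn'⟩ := sum_nat B M (fun q => if q.1 = M then (1 : ℝ) else 0)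
    (fun q hq => if_pos hq) (fun q hq => if_neg hq)
  have hwM := hw M
  unfold wQ at hwM
  rw [hH, hn, e2, add_zero] at hwM
  by_cases hMM : max a c = M
  · have e3 : wt M (a, c) = om (a, c) := by
      unfold wt
      exact if_pos hMM
    by_cases h3 : min a c = π / 2
    · have e4 : om (a, c) = 1 / 2 := by
        unfold om
        rw [if_neg n2, if_pos h3]
      rw [e3, e4] at hwM
      have hn1 : n = 1 := by
        have : ((n : ℕ) : ℝ) = ((1 : ℕ) : ℝ) := by
          rw [← hwM]
          norm_num
        exact_mod_cast this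
      have hz : ∀ α, α ≠ M → wQ B H α = 0 := by
        intro α hα
        rw [← hw α]
        have g1 : wt α (a, b) = 0 := by
          unfold wt
          rw [if_neg]
          rw [← hMd]
          exact hα.symm
        have g2 : wt α (a, c) = 0 := by
          unfold wt
          rw [if_neg]
          rw [hMM]
          exact hα.symm
        rw [g1, g2, add_zero]
      have nn1 : ∀ (α : ℝ) (q : ℝ × ℝ), (0 : ℝ) ≤ if q.1 = α then (1 : ℝ) else 0 := by
        intro α q
        split_ifs <;> norm_num
      have nn2 : ∀ (α β : ℝ), (0 : ℝ) ≤ if β = α then (1 / 2 : ℝ) else 0 := by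
        intro α β
        split_ifs <;> norm_num
      have hB : ∀ q ∈ B, q.1 = M := by
        intro q hq
        by_contra hne
        have g1 := hz q.1 hne
        unfold wQ at g1
        have g2 := le_sum B (fun q' => if q'.1 = q.1 then (1 : ℝ) else 0) (nn1 q.1) q hq
        have g3 := sum_nn H (fun β => if β = q.1 then (1 / 2 : ℝ) else 0) (nn2 q.1)
        simp only [if_true] at g2
        linarith
      have hHn : H = [] := by
        rw [List.eq_nil_iff_forall_not_mem]
        intro β hβ
        have hne : β ≠ M := by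
          rintro rfl
          exact hM hβ
        have g1 := hz β hne
        unfold wQ at g1
        have g2 := sum_nn B (fun q' => if q'.1 = β then (1 : ℝ) else 0) (nn1 β)
        have g3 := le_sum H (fun β' => if β' = β then (1 / 2 : ℝ) else 0) (nn2 β) β hβ
        simp only [if_true] at g3
        linarith
      have hlen : B.length = 1 := by
        rw [← hn' hB, hn1]
      obtain ⟨q, hq⟩ := List.length_eq_one_iff.1 hlen
      have hqB : q ∈ B := by
        rw [hq]
        exact List.mem_singleton_self q
      have hq1 := hB q hqB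
      have hq2 : 0 < q.2 ∧ q.2 < M := by
        rcases hO.2.1 q hqB with ⟨h | h, h'⟩
        · rw [← hq1]
          exact ⟨h.2.2.1, h.2.2.2.1⟩
        · exact absurd h.1 (not_lt.2 h'.le)
      -- the constants
      have c1 : ct (a, b) = 1 / 2 * Ceta (π / M) 0 := by
        unfold ct
        rw [e1]
        have g : Cs (max a b) (min a b) = Ceta (π / M) 0 := by
          rw [hm, ← hMd]
          show Ceta (π / M) (π / 2 - π / 2) = Ceta (π / M) 0
          rw [sub_self]
        exact congrArg (fun z => 1 / 2 * z) g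
      have c2 : ct (a, c) = 1 / 2 * Ceta (π / M) 0 := by
        unfold ct
        rw [e4]
        have g : Cs (max a c) (min a c) = Ceta (π / M) 0 := by
          rw [h3, hMM]
          show Ceta (π / M) (π / 2 - π / 2) = Ceta (π / M) 0
          rw [sub_self]
        exact congrArg (fun z => 1 / 2 * z) g
      rw [c1, c2] at hc
      unfold cQ at hc
      rw [hq, hHn] at hc
      simp only [List.map_cons, List.map_nil, List.sum_cons, List.sum_nil, add_zero] at hc
      rw [hq1] at hc
      have hb1 : 1 < π / M := by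
        rw [lt_div_iff₀ (by linarith [pi_pos]), one_mul]
        exact hMpi
      have hb2 : π / M < 2 := by
        rw [div_lt_iff₀ (by linarith [pi_pos])]
        linarith
      have hpb : π / (π / M) = M := by
        have hp := pi_pos.ne'
        have hM0 : M ≠ 0 := by linarith [pi_pos]
        field_simp
      have hX := XCE (π / M) 0 q.2 hb1 hb2 le_rfl (by rw [hpb]; linarith) hq2.1
        (by rw [hpb]; exact hq2.2) (by linarith)
      exact lt_irrefl _ hX.2
    · have e4 : om (a, c) = 1 := by
        unfold om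
        rw [if_neg n2, if_neg h3]
      rw [e3, e4] at hwM
      have h5 : ((3 : ℕ) : ℝ) = ((2 * n : ℕ) : ℝ) := by
        push_cast
        linarith
      have h6 : 3 = 2 * n := by exact_mod_cast h5
      omega
  · have e3 : wt M (a, c) = 0 := by
      unfold wt
      exact if_neg hMM
    rw [e3, add_zero] at hwM
    have h5 : ((1 : ℕ) : ℝ) = ((2 * n : ℕ) : ℝ) := by
      push_cast
      linarith
    have h6 : 1 = 2 * n := by exact_mod_cast h5
    omega

theorem mtc_of (A B : List (ℝ × ℝ)) (H : List ℝ) (a b : ℝ) (n1 : ¬ obt (a, b))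
    (hm : min a b = π / 2) (h : max a b ∈ H) : Mtc A B H (a, b) := by
  refine ⟨fun h' => absurd h' n1, fun _ h' => ?_, fun _ _ => h⟩
  have h'' : min a b < π / 2 := h'
  rw [hm] at h''
  exact absurd h'' (lt_irrefl _)

theorem min_le (a b : ℝ) (n1 : ¬ obt (a, b)) : min a b ≤ π / 2 := by
  by_contra h
  exact n1 (lt_min_iff.1 (not_le.1 h))

theorem xm2 (XCE : XceStmt) : Xm2Stmt := by
  intro a b c A B H K1 K2 hO n1 n2 hor hw hc
  rcases hor with h | h
  · have hm : min a b = π / 2 := le_antisymm (min_le a b n1) h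
    exact Or.inl (mtc_of A B H a b n1 hm (core XCE a b c A B H K1 K2 hO n1 n2 hm hw hc))
  · have hm : min a c = π / 2 := le_antisymm (min_le a c n2) h
    refine Or.inr (mtc_of A B H a c n2 hm (core XCE a c b A B H K2 K1 hO n2 n1 hm ?_ ?_))
    · intro α
      rw [add_comm]
      exact hw α
    · rw [add_comm]
      exact hc

end Pool.Agent.QUD.H15
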