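import Pool.Agent.QUD.StmtsY

/-!
Squad QUD (MP_5b0138_an), row XM3 (helper15): two items at a common acute angle, list level.
-/

set_option autoImplicit false

namespace Pool.Agent.QUD.H15Z

open MeasureTheory Filter Topology Real Set Pool.Agent.AEU Pool.Agent.AEU.H12 Pool.Agent.XQ
  Pool.Agent.XQ.U Pool.Agent.QUD

theorem sum_len {α : Type} (B : List α) (P : α → Prop) [DecidablePred P] (f : α → ℝ) (w : ℝ)
    (h1 : ∀ q, P q → f q = w) (h0 : ∀ q, ¬ P q → f q = 0) :
    (B.map f).sum = w * ((B.filter (fun q => decide (P q))).length : ℝ) := by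
  induction B with
  | nil => simp
  | cons q B ih =>
    rw [List.map_cons, List.sum_cons, ih, List.filter_cons]
    by_cases hq : P q
    · rw [h1 q hq, if_pos (decide_eq_true hq), List.length_cons]
      push_cast
      ring
    · rw [h0 q hq, if_neg (by simpa using hq), zero_add]

theorem sum_split {α : Type} (B : List α) (P P' : α → Prop) [DecidablePred P] [DecidablePred P']
    (g : α → ℝ) (h : ∀ q ∈ B, (P q ∧ ¬ P' q) ∨ (¬ P q ∧ P' q)) :
    (B.map g).sum = ((B.filter (fun q => decide (P q))).map g).sum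
      + ((B.filter (fun q => decide (P' q))).map g).sum := by
  induction B with
  | nil => simp
  | cons q B ih =>
    have ih' := ih fun q' hq' => h q' (List.mem_cons_of_mem _ hq')
    rw [List.map_cons, List.sum_cons, ih', List.filter_cons, List.filter_cons]
    rcases h q List.mem_cons_self with ⟨h1, h2⟩ | ⟨h1, h2⟩
    · rw [if_pos (decide_eq_true h1), if_neg (by simpa using h2), List.map_cons, List.sum_cons]
      ring
    · rw [if_neg (by simpa using h1), if_pos (decide_eq_true h2), List.map_cons, List.sum_cons]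
      ring

theorem len_pos {α : Type} (l : List α) (P : α → Prop) [DecidablePred P] (x : α) (hx : x ∈ l)
    (hP : P x) : 1 ≤ (l.filter (fun q => decide (P q))).length :=
  List.length_pos_of_mem (List.mem_filter.2 ⟨hx, decide_eq_true hP⟩)

/-- items of type B -/
theorem itemB (B : List (ℝ × ℝ)) (hO : ∀ p ∈ B, OkB p ∧ π / 2 < p.1) (hM : ¬ Mid B) (q : ℝ × ℝ)
    (hq : q ∈ B) : ∃ f, 0 < f ∧ f < q.1 - π / 2 ∧ (q.2 = f ∨ q.2 = q.1 - f) ∧
      Ceta (π / q.1) q.2 = Ceta (π / q.1) f := by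
  obtain ⟨hok, hq1⟩ := hO q hq
  have hok1 : π / 2 < q.1 ∧ q.1 < π ∧ 0 < q.2 ∧ q.2 < q.1 ∧ q.2 ≠ π / 2 ∧ q.1 - q.2 ≠ π / 2 := by
    rcases hok with h | h
    · exact h
    · exact absurd h.1 (not_lt.2 hq1.le)
  obtain ⟨_, h1, h2, h3, h4, h5⟩ := hok1
  by_cases hlt : q.2 < q.1 - π / 2
  · exact ⟨q.2, h2, hlt, Or.inl rfl, rfl⟩
  · have h6 : q.1 - π / 2 < q.2 := by
      rcases lt_or_eq_of_le (not_lt.1 hlt) with h | h
      · exact h
      · exact absurd (by linarith : q.1 - q.2 = π / 2) h5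
    have h7 : π / 2 < q.2 := by
      rcases lt_trichotomy q.2 (π / 2) with h | h | h
      · exact absurd ⟨q, hq, h6, h⟩ hM
      · exact absurd h h4
      · exact h
    refine ⟨q.1 - q.2, by linarith, by linarith, Or.inr (by ring), ?_⟩
    have hq0 : q.1 ≠ 0 := by linarith [pi_pos]
    have e : cos (2 * (π / q.1) * q.2) = cos (2 * (π / q.1) * (q.1 - q.2)) := by
      have e1 : 2 * (π / q.1) * (q.1 - q.2) = 2 * π - 2 * (π / q.1) * q.2 := by
        field_simp
      rw [e1, cos_two_pi_sub]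
    unfold Ceta
    rw [e]

/-- the part of the constant at `α` -/
noncomputable def KK (B : List (ℝ × ℝ)) (H : List ℝ) (α : ℝ) : ℝ := by
  classical
  exact ((B.filter (fun q => decide (q.1 = α))).map fun q => Ceta (π / q.1) q.2).sum
    + ((H.filter (fun β => decide (β = α))).map fun β => 1 / 2 * Ceta (π / β) 0).sum

theorem KK_eq (B : List (ℝ × ℝ)) (H : List ℝ) (α : ℝ) [DecidablePred fun q : ℝ × ℝ => q.1 = α]
    [DecidablePred fun β : ℝ => β = α] :
    KK B H α = ((B.filter (fun q => decide (q.1 = α))).map fun q => Ceta (π / q.1) q.2).sum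
    + ((H.filter (fun β => decide (β = α))).map fun β => 1 / 2 * Ceta (π / β) 0).sum := by
  unfold KK
  refine congrArg₂ (· + ·) ?_ ?_
  · refine congrArg (fun l : List (ℝ × ℝ) => (l.map fun q => Ceta (π / q.1) q.2).sum) ?_
    refine List.filter_congr fun q _ => ?_
    exact decide_eq_decide.2 Iff.rfl
  · refine congrArg (fun l : List ℝ => (l.map fun β => 1 / 2 * Ceta (π / β) 0).sum) ?_
    refine List.filter_congr fun q _ => ?_
    exact decide_eq_decide.2 Iff.rfl

theorem item1 (B : List (ℝ × ℝ)) (H : List ℝ) (α : ℝ) [DecidablePred fun q : ℝ × ℝ => q.1 = α]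
    [DecidablePred fun β : ℝ => β = α]
    (hα : π / 2 < α) (hO : ∀ p ∈ B, OkB p ∧ π / 2 < p.1) (hM : ¬ Mid B)
    (hn : 2 * (B.filter (fun q => decide (q.1 = α))).length
      + (H.filter (fun β => decide (β = α))).length = 2) :
    ∃ f, 0 ≤ f ∧ f < α - π / 2 ∧ Ib B H α f ∧ KK B H α = Ceta (π / α) f := by
  rw [KK_eq]
  obtain ⟨Bb, hBb⟩ : ∃ Bb, Bb = B.filter (fun q => decide (q.1 = α)) := ⟨_, rfl⟩
  obtain ⟨Hb, hHb⟩ : ∃ Hb, Hb = H.filter (fun β => decide (β = α)) := ⟨_, rfl⟩
  rw [← hBb, ← hHb] at hn ⊢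
  have hBm : ∀ q ∈ Bb, q ∈ B ∧ q.1 = α := by
    intro q hq
    rw [hBb] at hq
    obtain ⟨h1, h2⟩ := List.mem_filter.1 hq
    exact ⟨h1, of_decide_eq_true h2⟩
  have hHm : ∀ β ∈ Hb, β ∈ H ∧ β = α := by
    intro q hq
    rw [hHb] at hq
    obtain ⟨h1, h2⟩ := List.mem_filter.1 hq
    exact ⟨h1, of_decide_eq_true h2⟩
  have hcases : (Bb.length = 1 ∧ Hb.length = 0) ∨ (Bb.length = 0 ∧ Hb.length = 2) := by omega
  rcases hcases with ⟨h1, h2⟩ | ⟨h1, h2⟩
  · obtain ⟨q, rfl⟩ := List.length_eq_one_iff.1 h1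
    have hHn : Hb = [] := List.length_eq_zero_iff.1 h2
    obtain ⟨hqB, hq1⟩ := hBm q (List.mem_singleton_self q)
    obtain ⟨f, hf0, hf1, hf2, hf3⟩ := itemB B hO hM q hqB
    rw [hq1] at hf1 hf2 hf3
    refine ⟨f, hf0.le, hf1, Or.inr ⟨hf0, hf1, q, hqB, hq1, hf2⟩, ?_⟩
    rw [hHn]
    simp only [List.map_cons, List.map_nil, List.sum_cons, List.sum_nil, add_zero]
    rw [hq1]
    exact hf3
  · have hBn : Bb = [] := List.length_eq_zero_iff.1 h1
    obtain ⟨x, y, rfl⟩ := List.length_eq_two.1 h2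
    obtain ⟨hx, hx1⟩ := hHm x (by simp)
    obtain ⟨hy, hy1⟩ := hHm y (by simp)
    rw [hx1] at hx
    refine ⟨0, le_rfl, by linarith, Or.inl ⟨rfl, hx⟩, ?_⟩
    rw [hBn]
    simp only [List.map_cons, List.map_nil, List.sum_cons, List.sum_nil, add_zero]
    rw [hx1, hy1]
    ring

theorem item2 (B : List (ℝ × ℝ)) (H : List ℝ) (α : ℝ) [DecidablePred fun q : ℝ × ℝ => q.1 = α]
    [DecidablePred fun β : ℝ => β = α]
    (hα : π / 2 < α) (hO : ∀ p ∈ B, OkB p ∧ π / 2 < p.1) (hM : ¬ Mid B)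
    (hn : 2 * (B.filter (fun q => decide (q.1 = α))).length
      + (H.filter (fun β => decide (β = α))).length = 4) :
    ∃ f1 f2, (0 ≤ f1 ∧ f1 < α - π / 2 ∧ Ib B H α f1) ∧ (0 ≤ f2 ∧ f2 < α - π / 2 ∧ Ib B H α f2) ∧
      KK B H α = Ceta (π / α) f1 + Ceta (π / α) f2 := by
  rw [KK_eq]
  obtain ⟨Bb, hBb⟩ : ∃ Bb, Bb = B.filter (fun q => decide (q.1 = α)) := ⟨_, rfl⟩
  obtain ⟨Hb, hHb⟩ : ∃ Hb, Hb = H.filter (fun β => decide (β = α)) := ⟨_, rfl⟩
  rw [← hBb, ← hHb] at hn ⊢
  have hBm : ∀ q ∈ Bb, q ∈ B ∧ q.1 = α := by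
    intro q hq
    rw [hBb] at hq
    obtain ⟨h1, h2⟩ := List.mem_filter.1 hq
    exact ⟨h1, of_decide_eq_true h2⟩
  have hHm : ∀ β ∈ Hb, β ∈ H ∧ β = α := by
    intro q hq
    rw [hHb] at hq
    obtain ⟨h1, h2⟩ := List.mem_filter.1 hq
    exact ⟨h1, of_decide_eq_true h2⟩
  have hcases : (Bb.length = 2 ∧ Hb.length = 0) ∨ (Bb.length = 1 ∧ Hb.length = 2) ∨
      (Bb.length = 0 ∧ Hb.length = 4) := by omega
  have hBi : ∀ q ∈ Bb, ∃ f, (0 ≤ f ∧ f < α - π / 2 ∧ Ib B H α f) ∧
      Ceta (π / q.1) q.2 = Ceta (π / α) f := by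
    intro q hq
    obtain ⟨hqB, hq1⟩ := hBm q hq
    obtain ⟨f, hf0, hf1, hf2, hf3⟩ := itemB B hO hM q hqB
    rw [hq1] at hf1 hf2 hf3
    rw [hq1]
    exact ⟨f, ⟨hf0.le, hf1, Or.inr ⟨hf0, hf1, q, hqB, hq1, hf2⟩⟩, hf3⟩
  rcases hcases with ⟨h1, h2⟩ | ⟨h1, h2⟩ | ⟨h1, h2⟩
  · obtain ⟨q, r, rfl⟩ := List.length_eq_two.1 h1
    have hHn : Hb = [] := List.length_eq_zero_iff.1 h2
    obtain ⟨f1, hf1, hf1'⟩ := hBi q (by simp)
    obtain ⟨f2, hf2, hf2'⟩ := hBi r (by simp)
    refine ⟨f1, f2, hf1, hf2, ?_⟩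
    rw [hHn]
    simp only [List.map_cons, List.map_nil, List.sum_cons, List.sum_nil, add_zero]
    rw [hf1', hf2']
  · obtain ⟨q, rfl⟩ := List.length_eq_one_iff.1 h1
    obtain ⟨x, y, rfl⟩ := List.length_eq_two.1 h2
    obtain ⟨hx, hx1⟩ := hHm x (by simp)
    obtain ⟨hy, hy1⟩ := hHm y (by simp)
    rw [hx1] at hx
    obtain ⟨f1, hf1, hf1'⟩ := hBi q (by simp)
    refine ⟨f1, 0, hf1, ⟨le_rfl, by linarith, Or.inl ⟨rfl, hx⟩⟩, ?_⟩
    simp only [List.map_cons, List.map_nil, List.sum_cons, List.sum_nil, add_zero]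
    rw [hf1', hx1, hy1]
    ring
  · have hBn : Bb = [] := List.length_eq_zero_iff.1 h1
    have hx : α ∈ H := by
      have hne : Hb ≠ [] := by
        intro h
        rw [h] at h2
        simp at h2
      obtain ⟨x, hx⟩ := List.exists_mem_of_ne_nil _ hne
      obtain ⟨h3, h4⟩ := hHm x hx
      rwa [h4] at h3
    refine ⟨0, 0, ⟨le_rfl, by linarith, Or.inl ⟨rfl, hx⟩⟩, ⟨le_rfl, by linarith, Or.inl ⟨rfl, hx⟩⟩, ?_⟩
    have e : Hb.map (fun β => 1 / 2 * Ceta (π / β) 0) = List.replicate 4 (1 / 2 * Ceta (π / α) 0) := by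
      rw [List.eq_replicate_iff]
      refine ⟨by rw [List.length_map, h2], ?_⟩
      intro z hz
      obtain ⟨β, hβ, rfl⟩ := List.mem_map.1 hz
      rw [(hHm β hβ).2]
    rw [hBn, e]
    simp only [List.map_nil, List.sum_nil, List.sum_replicate, nsmul_eq_mul]
    push_cast
    ring

theorem xm3 (MCE : MceStmt) : Xm3Stmt := by
  classical
  intro a b c A B H K1 K2 hO ha hw hc
  by_cases hMid : Mid B
  · exact Or.inr (Or.inl hMid)
  have hK1 : 0 < a ∧ a < π ∧ 0 < b ∧ b < π ∧ π < a + b := K1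
  have hK2 : 0 < a ∧ a < π ∧ 0 < c ∧ c < π ∧ π < a + c := K2
  have hb : π / 2 < b := by linarith [hK1.2.2.2.2]
  have hcc : π / 2 < c := by linarith [hK2.2.2.2.2]
  have hab : a < b := by linarith
  have hac : a < c := by linarith
  have n1 : ∀ x, ¬ obt (a, x) := fun x h => absurd h.1 (not_lt.2 ha.le)
  have hmono : ∀ α f f', π / 2 < α → α < π → 0 ≤ f → f < f' → f' < α - π / 2 →
      Ceta (π / α) f < Ceta (π / α) f' := by
    intro α f f' h1 h2 h3 h4 h5
    have h6 := MCE α (π / 2 - f') (π / 2 - f) h1 h2 (by linarith) (by linarith) (by linarith)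
    have e : ∀ g, Cs α (π / 2 - g) = Ceta (π / α) g := by
      intro g
      show Ceta (π / α) (π / 2 - (π / 2 - g)) = Ceta (π / α) g
      rw [sub_sub_cancel]
    rwa [e, e] at h6
  have hom : ∀ x, a < x → om (a, x) = 1 := by
    intro x hx
    have e : min a x = a := min_eq_left hx.le
    unfold om
    rw [if_neg (n1 x)]
    refine if_neg ?_
    show ¬ min a x = π / 2
    rw [e]
    exact ha.ne
  have hwt : ∀ x, a < x → ∀ α, wt α (a, x) = if x = α then 1 else 0 := by
    intro x hx α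
    have e : max a x = x := max_eq_right hx.le
    unfold wt
    have e' : (max (a, x).1 (a, x).2) = x := e
    rw [e', hom x hx]
  have hct : ∀ x, a < x → ct (a, x) = Ceta (π / x) (π / 2 - a) := by
    intro x hx
    have e1 : max (a, x).1 (a, x).2 = x := max_eq_right hx.le
    have e2 : min (a, x).1 (a, x).2 = a := min_eq_left hx.le
    unfold ct
    rw [hom x hx, e1, e2, one_mul]
    rfl
  -- lengths
  have hlen : ∀ α, (if b = α then (1 : ℝ) else 0) + (if c = α then 1 else 0)
      = ((B.filter (fun q => decide (q.1 = α))).length : ℝ)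
        + 1 / 2 * ((H.filter (fun β => decide (β = α))).length : ℝ) := by
    intro α
    have h1 := hw α
    rw [hwt b hab, hwt c hac] at h1
    rw [h1]
    unfold wQ
    rw [sum_len B (fun q => q.1 = α) (fun q => if q.1 = α then (1 : ℝ) else 0) 1
        (fun q hq => if_pos hq) (fun q hq => if_neg hq),
      sum_len H (fun β => β = α) (fun β => if β = α then (1 / 2 : ℝ) else 0) (1 / 2)
        (fun q hq => if_pos hq) (fun q hq => if_neg hq), one_mul]
  have hBbc : ∀ q ∈ B, q.1 = b ∨ q.1 = c := by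
    intro q hq
    by_contra hn
    push_neg at hn
    have h1 := hlen q.1
    rw [if_neg (Ne.symm hn.1), if_neg (Ne.symm hn.2)] at h1
    have h2 := len_pos B (fun q' : ℝ × ℝ => q'.1 = q.1) q hq rfl
    have h3 : (1 : ℝ) ≤ ((B.filter (fun q' => decide (q'.1 = q.1))).length : ℝ) := by
      exact_mod_cast h2
    have h4 : (0 : ℝ) ≤ ((H.filter (fun β => decide (β = q.1))).length : ℝ) := Nat.cast_nonneg _
    linarith
  have hHbc : ∀ β ∈ H, β = b ∨ β = c := by
    intro β hβ
    by_contra hn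
    push_neg at hn
    have h1 := hlen β
    rw [if_neg (Ne.symm hn.1), if_neg (Ne.symm hn.2)] at h1
    have h2 := len_pos H (fun β' : ℝ => β' = β) β hβ rfl
    have h3 : (1 : ℝ) ≤ ((H.filter (fun β' => decide (β' = β))).length : ℝ) := by
      exact_mod_cast h2
    have h4 : (0 : ℝ) ≤ ((B.filter (fun q => decide (q.1 = β))).length : ℝ) := Nat.cast_nonneg _
    linarith
  rw [hct b hab, hct c hac] at hc
  -- the two items
  have key : ∃ f1 f2, (0 ≤ f1 ∧ f1 < b - π / 2 ∧ Ib B H b f1) ∧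
      (0 ≤ f2 ∧ f2 < c - π / 2 ∧ Ib B H c f2) ∧
      cQ B H = Ceta (π / b) f1 + Ceta (π / c) f2 := by
    by_cases hbc : b = c
    · subst hbc
      have hn := hlen b
      rw [if_pos rfl] at hn
      have hn' : 2 * (B.filter (fun q => decide (q.1 = b))).length
          + (H.filter (fun β => decide (β = b))).length = 4 := by
        have : ((2 * (B.filter (fun q => decide (q.1 = b))).length
          + (H.filter (fun β => decide (β = b))).length : ℕ) : ℝ) = ((4 : ℕ) : ℝ) := by
          push_cast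
          linarith
        exact_mod_cast this
      obtain ⟨f1, f2, h1, h2, h3⟩ := item2 B H b hb hO.2.1 hMid hn'
      refine ⟨f1, f2, h1, h2, ?_⟩
      rw [← h3, KK_eq]
      have e1 : B.filter (fun q => decide (q.1 = b)) = B :=
        List.filter_eq_self.2 fun q hq => decide_eq_true ((hBbc q hq).elim id id)
      have e2 : H.filter (fun β => decide (β = b)) = H :=
        List.filter_eq_self.2 fun q hq => decide_eq_true ((hHbc q hq).elim id id)
      rw [e1, e2]
      rfl
    · have hn1 := hlen b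
      rw [if_pos rfl, if_neg (Ne.symm hbc)] at hn1
      have hn2 := hlen c
      rw [if_pos rfl, if_neg hbc] at hn2
      have hn1' : 2 * (B.filter (fun q => decide (q.1 = b))).length
          + (H.filter (fun β => decide (β = b))).length = 2 := by
        have : ((2 * (B.filter (fun q => decide (q.1 = b))).length
          + (H.filter (fun β => decide (β = b))).length : ℕ) : ℝ) = ((2 : ℕ) : ℝ) := by
          push_cast
          linarith
        exact_mod_cast this
      have hn2' : 2 * (B.filter (fun q => decide (q.1 = c))).length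
          + (H.filter (fun β => decide (β = c))).length = 2 := by
        have : ((2 * (B.filter (fun q => decide (q.1 = c))).length
          + (H.filter (fun β => decide (β = c))).length : ℕ) : ℝ) = ((2 : ℕ) : ℝ) := by
          push_cast
          linarith
        exact_mod_cast this
      obtain ⟨f1, h10, h11, h12, h13⟩ := item1 B H b hb hO.2.1 hMid hn1'
      obtain ⟨f2, h20, h21, h22, h23⟩ := item1 B H c hcc hO.2.1 hMid hn2'
      refine ⟨f1, f2, ⟨h10, h11, h12⟩, ⟨h20, h21, h22⟩, ?_⟩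
      rw [← h13, ← h23, KK_eq, KK_eq]
      unfold cQ
      rw [sum_split B (fun q => q.1 = b) (fun q => q.1 = c) (fun q => Ceta (π / q.1) q.2),
        sum_split H (fun β => β = b) (fun β => β = c) (fun β => 1 / 2 * Ceta (π / β) 0)]
      · ring
      · intro β hβ
        rcases hHbc β hβ with h | h
        · exact Or.inl ⟨h, fun h' => hbc (h.symm.trans h')⟩
        · exact Or.inr ⟨fun h' => hbc (h'.symm.trans h), h⟩
      · intro q hq
        rcases hBbc q hq with h | h
        · exact Or.inl ⟨h, fun h' => hbc (h.symm.trans h')⟩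
        · exact Or.inr ⟨fun h' => hbc (h'.symm.trans h), h⟩
  obtain ⟨f1, f2, ⟨h10, h11, h12⟩, ⟨h20, h21, h22⟩, h3⟩ := key
  by_cases hf : f1 = f2
  · left
    subst hf
    rw [h3] at hc
    have hη1 : π / 2 - a < b - π / 2 := by linarith [hK1.2.2.2.2]
    have hη2 : π / 2 - a < c - π / 2 := by linarith [hK2.2.2.2.2]
    have hfη : f1 = π / 2 - a := by
      rcases lt_trichotomy f1 (π / 2 - a) with h | h | h
      · have g1 := hmono b _ _ hb hK1.2.2.2.1 h10 h hη1
        have g2 := hmono c _ _ hcc hK2.2.2.2.1 h10 h hη2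
        linarith
      · exact h
      · have g1 := hmono b _ _ hb hK1.2.2.2.1 (by linarith) h h11
        have g2 := hmono c _ _ hcc hK2.2.2.2.1 (by linarith) h h21
        linarith
    refine ⟨fun h' => absurd h' (n1 b), fun _ _ => ?_, fun _ h' => ?_⟩
    · rcases h12 with ⟨h, _⟩ | ⟨_, _, q, hq, hq1, hq2⟩
      · exfalso
        linarith
      · refine ⟨q, hq, ?_, ?_⟩
        · show q.1 = max a b
          rw [max_eq_right hab.le]
          exact hq1
        · have e2 : min (a, b).1 (a, b).2 = a := min_eq_left hab.le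
          rw [e2, ← hfη]
          rcases hq2 with h | h
          · exact Or.inl h
          · right
            rw [hq1]
            exact h
    · exfalso
      have h'' : min a b = π / 2 := h'
      rw [min_eq_left hab.le] at h''
      exact ha.ne h''
  · exact Or.inr (Or.inr ⟨f1, f2, hf, h12, h22⟩)

end Pool.Agent.QUD.H15Z
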